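import Pool.Agent.P.MP_2ce3e7_ag.Pav.MainP
import Pool.Agent.P.MP_2ce3e7_ag.Ptt.S

set_option autoImplicit false

namespace Pool.Agent.Results.MP_2ce3e7_ag.AllAbelianParshin

open Pool.Agent.Tav Pool.Agent.Bav Pool.Agent

/-- Vector bundles on the product of an abelian variety over a finite field with the boundary of
a simplex are torsion modulo the relations. -/
theorem result (k : Type) [Field k] [Fintype k] {G τ : Type} [AddCommGroup G] [Fintype τ]
    (g : ℕ) (p : G → τ → AlgebraicClosure k) (hA : AV p g)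
    (hi : ∀ y y', Par (p y) (p y') → y = y') (F : G →+ G)
    (hF : ∀ y, Par (p (F y)) (p y ^ Fintype.card k)) (s : ℕ) (hs : 0 < s) :
    CXD.Par k (CXD.Sph k s) (CXD.hom (idk k p)) (CXD.crd (idk k p)) :=
  Pav.mainP k hA hi hF s hs

/-- The relations do not kill every bundle: over a field with a unit of infinite order the
conclusion fails for `s = 1` and every nonempty projective scheme. -/
theorem sharp (k : Type) [Field k] (u : k) (hu : u ≠ 0) (hu' : ∀ n, 0 < n → u ^ n ≠ 1) {τ : Type}
    [Fintype τ] (S : Set (MvPolynomial τ k)) (hS : ∀ f ∈ S, ∃ n, f.IsHomogeneous n)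
    (hX : ∃ i, ∀ n, MvPolynomial.X i ^ n ∉ Ideal.span S) :
    ¬ CXD.Par k (CXD.Sph k 1) (CXD.hom (Ideal.span S)) (CXD.crd (Ideal.span S)) :=
  Ptt.not_par_span hu hu' S hS hX

/-- The same in the words of `result`: it fails for every abelian variety over such a field. -/
theorem sharp_av (k : Type) [Field k] (u : k) (hu : u ≠ 0) (hu' : ∀ n, 0 < n → u ^ n ≠ 1)
    {G τ : Type} [AddCommGroup G] [Fintype τ] (g : ℕ) (p : G → τ → AlgebraicClosure k)
    (hA : AV p g) :
    ¬ CXD.Par k (CXD.Sph k 1) (CXD.hom (idk k p)) (CXD.crd (idk k p)) :=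
  Ptt.not_par_idk hu hu' p (hA.ne 0)

end Pool.Agent.Results.MP_2ce3e7_ag.AllAbelianParshin
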