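import Pool.Agent.P.MP_2ce3e7_ag.Tav.TiAll
import Pool.Agent.P.MP_2ce3e7_ag.Tav.TtAll

set_option autoImplicit false

namespace Pool.Agent.Results.MP_2ce3e7_ag.AllAbelianTate

open Pool.Agent.Tav

/-- The strong Tate conjecture for every abelian variety over every finite field. -/
theorem result (k : Type) [Field k] [Fintype k] {G τ : Type} [AddCommGroup G] [Fintype τ]
    (j j' : ℕ) (p : G → τ → AlgebraicClosure k) (hA : AV p (j + j'))
    (hi : ∀ y y', Par (p y) (p y') → y = y') (F : G →+ G)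
    (hF : ∀ y, Par (p (F y)) (p y ^ Fintype.card k)) : Tate p F (Fintype.card k) j j' :=
  Ti.all k j j' p hA hi F hF

/-! The theorems below only document the definitions. -/

open MvPolynomial Set Function Filter

/-- `hp L` is the one polynomial that gives the dimension of `∏ L i ^ d i` for all large `d`. -/
theorem hp_spec {K T ι τ : Type} [Field K] [Fintype ι] [Fintype τ] (L : ι → Submodule K (T → K))
    (hL : ∀ i, ∃ x : T → τ → K, L i = crd x) (P : MvPolynomial ι ℚ) :
    P = hp L ↔ ∀ᶠ d : ι → ℕ in atTop, eval (fun i => (d i : ℚ)) P =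
      Module.finrank K (∏ i, L i ^ d i : Submodule K (T → K)) :=
  Tt.hp_spec' L hL P

section
variable {k G τ : Type} [Field k] [Fintype k] [AddCommGroup G] [Fintype τ] {j j' : ℕ}
  {p : G → τ → AlgebraicClosure k} (hA : AV p (j + j')) (hi : ∀ y y', Par (p y) (p y') → y = y')
  {F : G →+ G} (hF : ∀ y, Par (p (F y)) (p y ^ Fintype.card k)) (Y W : Set G)
include hA

/-- `dm Y` is the dimension of the closure of `Y`: the largest length of a chain of irreducible
closed subsets. -/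
theorem dimension (hY : Y.Nonempty) (n : ℕ) :
    n ≤ dm p Y ↔ ∃ Z : Fin (n + 1) → Set G, (∀ i i', i < i' → Z i ⊂ Z i') ∧ ∀ i,
      (∀ z ∈ Z i, p z ∈ zeroLocus (AlgebraicClosure k) (idl fun y : Y => p y)) ∧
      (idl fun z : Z i => p z).IsPrime ∧
      ∀ y, p y ∈ zeroLocus (AlgebraicClosure k) (idl fun z : Z i => p z) → y ∈ Z i :=
  Tt.chains hA.ne hA.cl hY n

/-- `dm` and `pair` depend only on the closures. -/
theorem closure :
    dm p {y | p y ∈ zeroLocus (AlgebraicClosure k) (idl fun y : Y => p y)} = dm p Y ∧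
    pair p (j + j') {y | p y ∈ zeroLocus (AlgebraicClosure k) (idl fun y : Y => p y)}
      {w | p w ∈ zeroLocus (AlgebraicClosure k) (idl fun w : W => p w)} = pair p (j + j') Y W :=
  Tt.closure hA _ Y W

/-- A set of points is the finite union of its irreducible components. -/
theorem components : ∃ (m : ℕ) (Z : Fin m → Set G),
    range Z = {Z | (Z ⊆ Y ∧ (idl fun z : Z => p z).IsPrime) ∧
      ∀ Z', Z' ⊆ Y ∧ (idl fun z : Z' => p z).IsPrime → Z ⊆ Z' → Z' ⊆ Z} ∧
    (∀ y ∈ Y, ∃ i, y ∈ Z i) ∧ ∀ i, dm p (Z i) ≤ dm p Y :=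
  Tt.comps' hA.ne Y

/-- The leading coefficient `deg A / g!` of the Hilbert polynomial of `A` is positive. -/
theorem degree_pos : 0 < coeff (Finsupp.single 0 (j + j')) (hp ![crd p]) :=
  Tt.deg_pos hA

/-- `pair` vanishes below complementary dimensions. -/
theorem pair_zero (hd : dm p Y + dm p W < j + j') : pair p (j + j') Y W = 0 :=
  Tt.pair_zero hA hd

/-- `pair` is additive over the irreducible components. -/
theorem pair_add (dY : dm p Y ≤ j) (dW : dm p W ≤ j') : pair p (j + j') Y W =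
    ∑ᶠ Z ∈ {Z | (Z ⊆ Y ∧ (idl fun z : Z => p z).IsPrime) ∧
        ∀ Z', Z' ⊆ Y ∧ (idl fun z : Z' => p z).IsPrime → Z ⊆ Z' → Z' ⊆ Z},
      ∑ᶠ V ∈ {V | (V ⊆ W ∧ (idl fun v : V => p v).IsPrime) ∧
        ∀ V', V' ⊆ W ∧ (idl fun v : V' => p v).IsPrime → V ⊆ V' → V' ⊆ V},
        pair p (j + j') Z V :=
  Tt.pair_add hA dY dW

/-- If `Y`, `W` are irreducible and `(y, w) ↦ y - w` is dominant, `pair Y W` is `deg A / g!` times
the degree `r` of this map: `r` forms on `Y × W` give a basis of its function field over the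
function field of `A`. -/
theorem pair_degree (dY : dm p Y ≤ j) (dW : dm p W ≤ j') (hY : (idl fun y : Y => p y).IsPrime)
    (hW : (idl fun w : W => p w).IsPrime)
    (hd : ∀ e : ℕ, ∀ f ∈ crd p ^ e, (∀ t : Y × W, f (t.1 - t.2) = 0) → f = 0) :
    ∃ r : ℕ, pair p (j + j') Y W = r * coeff (Finsupp.single 0 (j + j')) (hp ![crd p]) ∧
      ∀ᶠ m : ℕ in atTop, ∃ u : Fin r → Y × W → AlgebraicClosure k,
        (∀ i, u i ∈ crd (fun t : Y × W => p t.1) ^ m * crd (fun t : Y × W => p t.2) ^ m) ∧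
        (∀ (e : ℕ) (c : Fin r → Y × W → AlgebraicClosure k),
          (∀ i, c i ∈ crd (fun t : Y × W => p (t.1 - t.2)) ^ e) →
            ∑ i, c i * u i = 0 → ∀ i, c i = 0) ∧
        ∀ x ∈ crd (fun t : Y × W => p t.1) ^ m * crd (fun t : Y × W => p t.2) ^ m,
          ∃ e : ℕ, ∃ f ∈ crd (fun t : Y × W => p (t.1 - t.2)) ^ e, f ≠ 0 ∧
            f * x ∈ Submodule.span (AlgebraicClosure k) (range u) *
              crd (fun t : Y × W => p (t.1 - t.2)) ^ e :=
  Tt.pair_degree hA hY hW dY dW hd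

include hi

/-- For irreducible `Y`, `W` the closure of `Y` meets the translate by `a` of the closure of `W`,
for every `a` off a hypersurface, in the same number `n` of points, and `pair Y W` is `deg A / g!`
times `n` times a power `μ` of the characteristic. -/
theorem pair_count (dY : dm p Y ≤ j) (dW : dm p W ≤ j') (hY : (idl fun y : Y => p y).IsPrime)
    (hW : (idl fun w : W => p w).IsPrime) :
    ∃ μ s n e : ℕ, μ ∣ Fintype.card k ^ s ∧ ∃ f ∈ crd p ^ e, f ≠ 0 ∧
      (∀ a, f a ≠ 0 → Nonempty (Fin n ≃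
        {y // p y ∈ zeroLocus (AlgebraicClosure k) (idl fun y : Y => p y) ∧
          p (y - a) ∈ zeroLocus (AlgebraicClosure k) (idl fun w : W => p w)})) ∧
      pair p (j + j') Y W = μ * n * coeff (Finsupp.single 0 (j + j')) (hp ![crd p]) :=
  Tt.count hA hi hY hW dY dW

include hF

/-- The fixed points of `F ^ n` are the finitely many points over the field with `q ^ n` elements. -/
theorem points (n : ℕ) (hn : n ≠ 0) : Nonempty (Fintype (fixedPoints F^[n])) ∧
    ∀ y, y ∈ fixedPoints F^[n] ↔ ∃ z, Par (p y) z ∧ z ^ Fintype.card k ^ n = z :=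
  ⟨Tt.fix_finite hA.ne hi hF hn |>.nonempty_fintype, Tt.fix_iff hA.ne hi hF n⟩

/-- The closure of a stable set is defined over `k`; a closed set defined over `k` is stable. -/
theorem rational :
    (F '' Y = Y → ∃ S : Set (MvPolynomial τ (AlgebraicClosure k)),
      (∀ f ∈ S, ∀ d, coeff d f ^ Fintype.card k = coeff d f) ∧
        (idl fun y : Y => p y) = Ideal.span S) ∧
    ∀ S : Set (MvPolynomial τ (AlgebraicClosure k)),
      (∀ f ∈ S, ∀ d, coeff d f ^ Fintype.card k = coeff d f) →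
        (idl fun y : Y => p y) = Ideal.span S →
      (∀ y, p y ∈ zeroLocus (AlgebraicClosure k) (idl fun y : Y => p y) → y ∈ Y) → F '' Y = Y :=
  ⟨Tt.defined_of_stable hF, fun _ hS h hc => Tt.stable_of_defined hA.ne hi hF hc hS h⟩

end

/-- The hypotheses hold for every elliptic curve over `k`: every Weierstrass cubic with
coefficients in `k` and nonzero discriminant. -/
theorem elliptic (k : Type) [Field k] [Fintype k] (a b : ℕ → AlgebraicClosure k)
    (ha : a ^ Fintype.card k = a) (h2 : b 2 = a 1 ^ 2 + 4 * a 2) (h4 : b 4 = 2 * a 4 + a 1 * a 3)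
    (h6 : b 6 = a 3 ^ 2 + 4 * a 6)
    (h8 : b 8 = a 1 ^ 2 * a 6 + 4 * a 2 * a 6 - a 1 * a 3 * a 4 + a 2 * a 3 ^ 2 - a 4 ^ 2)
    (hd : -b 2 ^ 2 * b 8 - 8 * b 4 ^ 3 - 27 * b 6 ^ 2 + 9 * b 2 * b 4 * b 6 ≠ 0) :
    ∃ (G : Type) (_ : AddCommGroup G) (p : G → Fin 3 → AlgebraicClosure k) (F : G →+ G),
      (∀ z, z ≠ 0 → ((∃ y, Par z (p y)) ↔
        z 1 ^ 2 * z 2 + a 1 * z 0 * z 1 * z 2 + a 3 * z 1 * z 2 ^ 2 =
          z 0 ^ 3 + a 2 * z 0 ^ 2 * z 2 + a 4 * z 0 * z 2 ^ 2 + a 6 * z 2 ^ 3)) ∧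
      p 0 = ![0, 1, 0] ∧ AV p 1 ∧ (∀ y y', Par (p y) (p y') → y = y') ∧
        ∀ y, Par (p (F y)) (p y ^ Fintype.card k) :=
  Tt.cubic k a b ha h2 h4 h6 h8 hd

/-- `AV` passes to products, in Segre coordinates. -/
theorem product {k G H σ τ : Type} [Field k] [AddCommGroup G] [AddCommGroup H] [Fintype σ]
    [Fintype τ] {p : G → σ → AlgebraicClosure k} {q : H → τ → AlgebraicClosure k} {g g' : ℕ}
    (h : AV p g) (h' : AV q g') :
    AV (fun (t : G × H) (l : σ × τ) => p t.1 l.1 * q t.2 l.2) (g + g') :=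
  Tt.av_prod h h'

/-- The hypotheses hold in every positive dimension over every finite field. -/
theorem nonempty (k : Type) [Field k] [Fintype k] (g : ℕ) :
    ∃ (G τ : Type) (_ : AddCommGroup G) (_ : Fintype τ) (p : G → τ → AlgebraicClosure k)
      (F : G →+ G), AV p (g + 1) ∧ (∀ y y', Par (p y) (p y') → y = y') ∧
        ∀ y, Par (p (F y)) (p y ^ Fintype.card k) :=
  Tt.hyp k g

end Pool.Agent.Results.MP_2ce3e7_ag.AllAbelianTate
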