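import Pool.Agent.K.MP_e12fcd_ag.C343

namespace Pool.Agent.Results.MP_2ce3e7_ag.ClassicalDLTate

open Pool.Agent.CXD

theorem result (k : Type) [Field k] [Fintype k] (q e N d m : ℕ) (n : Fin N → ℕ)
    (hk : Fintype.card k = q ^ (2 * e)) (δ : Ix N d m → ℕ) (U : Set (Fin N))
    (J K : ∀ b, Matrix (Fin (n b)) (Fin (n b)) k) (E : Ix N d m → Set (Fin m))
    (h : Cla q δ U J K E) (j : ℕ) :
    Tate k (hom (sI q δ U J K E)) (crd (sI q δ U J K E)) j :=
  tate_s k q e N d m n hk δ U J K E h j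

end Pool.Agent.Results.MP_2ce3e7_ag.ClassicalDLTate
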